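import Mathlib

set_option autoImplicit false

namespace Pool.Agent.H.MP_98b561_al

section Perm
variable {E : Type} [Countable E]

def Sup (S : Set E) (π : Equiv.Perm E) : Prop := ∀ x, x ∉ S → π x = x

theorem ext_perm (Z M : Set E) (f : E → E) (hM : M ⊆ Z) (hf : Set.InjOn f M) (hfZ : f '' M ⊆ Z)
    (h1 : (Z \ M).Infinite) (h2 : (Z \ f '' M).Infinite) :
    ∃ π : Equiv.Perm E, Sup Z π ∧ ∀ x ∈ M, π x = f x := by
  classical
  haveI := h1.to_subtype
  haveI := h2.to_subtype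
  obtain ⟨e⟩ : Nonempty (↥(Z \ M) ≃ ↥(Z \ f '' M)) := nonempty_equiv_of_countable
  let g : E → E := fun x => if x ∈ M then f x else if h : x ∈ Z \ M then e ⟨x, h⟩ else x
  have g1 : ∀ x ∈ M, g x = f x := fun x hx => by simp [g, hx]
  have g2 : ∀ x (h : x ∈ Z \ M), g x = e ⟨x, h⟩ := fun x h => by
    simp only [g]
    rw [if_neg h.2, dif_pos h]
  have g3 : ∀ x, x ∉ Z → g x = x := fun x hx => by
    simp only [g]
    rw [if_neg (fun h => hx (hM h)), dif_neg (fun h => hx h.1)]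
  have tri : ∀ x, x ∈ M ∨ x ∈ Z \ M ∨ x ∉ Z := fun x => by
    by_cases a : x ∈ M
    · exact Or.inl a
    · by_cases b : x ∈ Z
      · exact Or.inr (Or.inl ⟨b, a⟩)
      · exact Or.inr (Or.inr b)
  have hb : Function.Bijective g := by
    constructor
    · intro x y hxy
      rcases tri x with a | a | a <;> rcases tri y with b | b | b
      · rw [g1 x a, g1 y b] at hxy
        exact hf a b hxy
      · rw [g1 x a, g2 y b] at hxy
        exact absurd ⟨x, a, hxy⟩ (e ⟨y, b⟩).2.2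
      · rw [g1 x a, g3 y b] at hxy
        exact absurd (hfZ ⟨x, a, hxy⟩) b
      · rw [g2 x a, g1 y b] at hxy
        exact absurd ⟨y, b, hxy.symm⟩ (e ⟨x, a⟩).2.2
      · rw [g2 x a, g2 y b] at hxy
        exact congrArg Subtype.val (e.injective (Subtype.ext hxy))
      · rw [g2 x a, g3 y b] at hxy
        exact absurd (hxy ▸ (e ⟨x, a⟩).2.1) b
      · rw [g3 x a, g1 y b] at hxy
        exact absurd (hfZ ⟨y, b, hxy.symm⟩) a
      · rw [g3 x a, g2 y b] at hxy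
        exact absurd (hxy ▸ (e ⟨y, b⟩).2.1) a
      · rw [g3 x a, g3 y b] at hxy
        exact hxy
    · intro y
      by_cases a : y ∈ f '' M
      · obtain ⟨x, hx, rfl⟩ := a
        exact ⟨x, g1 x hx⟩
      · by_cases b : y ∈ Z
        · refine ⟨e.symm ⟨y, b, a⟩, ?_⟩
          rw [g2 _ (e.symm ⟨y, b, a⟩).2]
          simp
        · exact ⟨y, g3 y b⟩
  exact ⟨Equiv.ofBijective g hb, g3, g1⟩

theorem emb_into (T : Set E) (hT : T.Infinite) :
    ∃ f : E → E, Function.Injective f ∧ ∀ x, f x ∈ T := by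
  obtain ⟨c, hc⟩ := exists_injective_nat E
  exact ⟨fun x => hT.natEmbedding T (c x), fun x y h =>
    hc ((hT.natEmbedding T).injective (Subtype.ext h)), fun x => (hT.natEmbedding T (c x)).2⟩

omit [Countable E] in
theorem thin (T B : Set E) (hT : T.Infinite) (hB : B.Infinite) :
    ∃ T' ⊆ T, T'.Infinite ∧ (B \ T').Infinite := by
  by_cases h : (T \ B).Infinite
  · refine ⟨T \ B, Set.diff_subset, h, hB.mono ?_⟩
    intro x hx
    exact ⟨hx, fun h' => h'.2 hx⟩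
  · have h2 : (T ∩ B).Infinite := by
      intro h3
      apply hT
      rw [← Set.inter_union_diff T B]
      exact h3.union (Set.not_infinite.mp h)
    let e := h2.natEmbedding (T ∩ B)
    have ei : Function.Injective (fun n => (e n : E)) := fun a b hab =>
      e.injective (Subtype.ext hab)
    refine ⟨Set.range (fun n => (e (2 * n) : E)), ?_, ?_, ?_⟩
    · rintro _ ⟨n, rfl⟩
      exact (e (2 * n)).2.1
    · exact Set.infinite_range_of_injective (fun a b hab => by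
        have := ei hab
        omega)
    · refine (Set.infinite_range_of_injective (f := fun n => (e (2 * n + 1) : E))
        (fun a b hab => by
          have := ei hab
          omega)).mono ?_
      rintro _ ⟨n, rfl⟩
      refine ⟨(e (2 * n + 1)).2.2, ?_⟩
      rintro ⟨m, hm⟩
      have := ei hm
      omega

theorem decomp (A B C : Set E) (hA : A.Infinite) (hB : B.Infinite) (hC : C.Infinite)
    (hAB : Disjoint A B) (hAC : Disjoint A C) (hBC : Disjoint B C) (hall : ∀ x, x ∈ A ∨ x ∈ B ∨ x ∈ C)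
    (σ : Equiv.Perm E) :
    ∃ π1 π2 π3 π4 q : Equiv.Perm E, Sup (A ∪ C) π1 ∧ Sup (A ∪ B) π2 ∧ Sup (B ∪ C) π3 ∧
      Sup (B ∪ C) π4 ∧ Sup (A ∪ B) q ∧ σ = π1⁻¹ * π2⁻¹ * π3⁻¹ * π4 * q * π4⁻¹ := by
  have dAB := Set.disjoint_left.mp hAB
  have dAC := Set.disjoint_left.mp hAC
  have dBC := Set.disjoint_left.mp hBC
  obtain ⟨T1, s1, i1, j1⟩ := thin (σ '' C) B (hC.image σ.injective.injOn) hB
  obtain ⟨M, s2, i2, j2⟩ := thin T1 (A ∪ C) i1 (hA.mono Set.subset_union_left)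
  have j1' : (B \ M).Infinite := j1.mono (Set.diff_subset_diff_right s2)
  have hMC : ∀ x ∈ M, σ⁻¹ x ∈ C := by
    intro x hx
    obtain ⟨y, hy, rfl⟩ := s1 (s2 hx)
    simpa using hy
  obtain ⟨fA, iA, mA⟩ := emb_into A hA
  obtain ⟨fB, iB, mB⟩ := emb_into B hB
  obtain ⟨fM, iM, mM⟩ := emb_into M i2
  obtain ⟨π1, u1, v1⟩ := ext_perm (A ∪ C) (M ∩ (A ∪ C)) fA Set.inter_subset_right iA.injOn
    (by rintro _ ⟨x, -, rfl⟩; exact Or.inl (mA x))
    (j2.mono (fun x hx => ⟨hx.1, fun h => hx.2 h.1⟩))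
    (hC.mono (fun x hx => ⟨Or.inr hx, by rintro ⟨y, -, rfl⟩; exact dAC (mA y) hx⟩))
  have w1 : ∀ x ∈ M, π1 x ∈ A ∨ (x ∈ B ∧ π1 x = x) := by
    intro x hx
    by_cases h : x ∈ A ∪ C
    · left
      rw [v1 x ⟨hx, h⟩]
      exact mA x
    · right
      refine ⟨?_, u1 x h⟩
      rcases hall x with a | a | a
      · exact absurd (Or.inl a) h
      · exact a
      · exact absurd (Or.inr a) h
  obtain ⟨π2, u2, v2⟩ := ext_perm (A ∪ B) (π1 '' M) fB
    (by
      rintro _ ⟨x, hx, rfl⟩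
      rcases w1 x hx with a | ⟨a, b⟩
      · exact Or.inl a
      · rw [b]; exact Or.inr a) iB.injOn
    (by rintro _ ⟨x, -, rfl⟩; exact Or.inr (mB x))
    (j1'.mono (fun x hx => ⟨Or.inr hx.1, by
      rintro ⟨y, hy, rfl⟩
      rcases w1 y hy with a | ⟨a, b⟩
      · exact dAB a hx.1
      · rw [b] at hx; exact hx.2 hy⟩))
    (hA.mono (fun x hx => ⟨Or.inl hx, by rintro ⟨y, -, rfl⟩; exact dAB hx (mB y)⟩))
  have w2 : ∀ x ∈ M, π2 (π1 x) ∈ B := fun x hx => by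
    rw [v2 _ ⟨x, hx, rfl⟩]
    exact mB _
  obtain ⟨π3, u3, v3⟩ := ext_perm (B ∪ C) ((π2 * π1) '' M) ((π2 * π1 * σ)⁻¹ : Equiv.Perm E)
    (by rintro _ ⟨x, hx, rfl⟩; exact Or.inl (w2 x hx)) (Equiv.injective _).injOn
    (by
      rintro _ ⟨_, ⟨x, hx, rfl⟩, rfl⟩
      right
      simpa using hMC x hx)
    (hC.mono (fun x hx => ⟨Or.inr hx, by rintro ⟨y, hy, rfl⟩; exact dBC (w2 y hy) hx⟩))
    (hB.mono (fun x hx => ⟨Or.inl hx, by
      rintro ⟨_, ⟨y, hy, rfl⟩, rfl⟩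
      refine dBC hx ?_
      simpa using hMC y hy⟩))
  obtain ⟨π4, u4, v4⟩ := ext_perm (B ∪ C) C (fun x => σ⁻¹ (fM x)) Set.subset_union_right
    (((σ⁻¹).injective.comp iM).injOn)
    (by rintro _ ⟨x, -, rfl⟩; exact Or.inr (hMC _ (mM x)))
    (hB.mono (fun x hx => ⟨Or.inl hx, dBC hx⟩))
    (hB.mono (fun x hx => ⟨Or.inl hx, by rintro ⟨y, -, rfl⟩; exact dBC hx (hMC _ (mM y))⟩))
  refine ⟨π1, π2, π3, π4, π4⁻¹ * (π3 * π2 * π1 * σ) * π4, u1, u2, u3, u4, ?_, by group⟩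
  intro x hx
  have hxC : x ∈ C := by
    rcases hall x with a | a | a
    · exact absurd (Or.inl a) hx
    · exact absurd (Or.inr a) hx
    · exact a
  have e1 := v3 _ ⟨fM x, mM x, rfl⟩
  simp only [Equiv.Perm.coe_mul, Function.comp_apply, mul_inv_rev, Equiv.Perm.coe_inv,
    Equiv.symm_apply_apply] at e1
  have e2 := v4 x hxC
  simp only [Equiv.Perm.coe_mul, Function.comp_apply, Equiv.Perm.coe_inv] at e2 ⊢
  rw [Equiv.symm_apply_eq, e2, Equiv.apply_symm_apply, e1]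

theorem moi (S T : Set E) (h1 : S.Infinite) (h2 : Sᶜ.Infinite) (h3 : T.Infinite)
    (h4 : Tᶜ.Infinite) : ∃ π : Equiv.Perm E, ∀ x, x ∈ S → π x ∈ T := by
  obtain ⟨f, i, m⟩ := emb_into T h3
  obtain ⟨π, -, v⟩ := ext_perm Set.univ S f (Set.subset_univ _) i.injOn (Set.subset_univ _)
    (h2.mono (fun x hx => ⟨trivial, hx⟩))
    (h4.mono (fun x hx => ⟨trivial, by rintro ⟨y, -, rfl⟩; exact hx (m y)⟩))
  exact ⟨π, fun x hx => by rw [v x hx]; exact m x⟩

end Perm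

section Hyp
variable {G : Type} [Group G]

/-- a length function -/
structure IsLen (L : G → ℕ) : Prop where
  one : L 1 = 0
  inv : ∀ g, L g⁻¹ = L g
  mul : ∀ g h, L (g * h) ≤ L g + L h

noncomputable def gpr (L : G → ℕ) (a b : G) : ℝ := ((L a : ℝ) + (L b : ℝ) - (L (a⁻¹ * b) : ℝ)) / 2

theorem IsLen.pow {L : G → ℕ} (hL : IsLen L) (g : G) (n : ℕ) : L (g ^ n) ≤ n * L g := by
  induction n with
  | zero => simp [hL.one]
  | succ n ih =>
    rw [pow_succ]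
    have := hL.mul (g ^ n) g
    nlinarith

theorem gpr_pert {L : G → ℕ} (hL : IsLen L) (x y k k' : G) :
    gpr L x y - L k - L k' ≤ gpr L (x * k) (y * k') := by
  have h1 : L x ≤ L (x * k) + L k := by
    have := hL.mul (x * k) k⁻¹
    rwa [mul_inv_cancel_right, hL.inv] at this
  have h2 : L y ≤ L (y * k') + L k' := by
    have := hL.mul (y * k') k'⁻¹
    rwa [mul_inv_cancel_right, hL.inv] at this
  have h3 : L ((x * k)⁻¹ * (y * k')) ≤ L k + L (x⁻¹ * y) + L k' := by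
    have e : (x * k)⁻¹ * (y * k') = k⁻¹ * (x⁻¹ * y) * k' := by group
    have a := hL.mul (k⁻¹ * (x⁻¹ * y)) k'
    have b := hL.mul k⁻¹ (x⁻¹ * y)
    rw [hL.inv] at b
    rw [e]
    omega
  have h1' : (L x : ℝ) ≤ L (x * k) + L k := by exact_mod_cast h1
  have h2' : (L y : ℝ) ≤ L (y * k') + L k' := by exact_mod_cast h2
  have h3' : (L ((x * k)⁻¹ * (y * k')) : ℝ) ≤ L k + L (x⁻¹ * y) + L k' := by exact_mod_cast h3
  unfold gpr
  linarith

theorem chain {L : G → ℕ} (hL : IsLen L) (δ : ℝ) (hδ : 0 ≤ δ)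
    (hyp : ∀ x y z, min (gpr L x y) (gpr L y z) - δ ≤ gpr L x z) (γ : G)
    (h2 : (L γ : ℝ) + (2 * δ + 1) ≤ L (γ ^ 2)) (i j : ℕ) :
    ((min i j : ℕ) : ℝ) ≤ gpr L (γ ^ i) (γ ^ j) := by
  have step : ∀ n : ℕ, (L (γ ^ n) : ℝ) + 1 ≤ L (γ ^ (n + 1)) := by
    intro n
    induction n with
    | zero =>
      have := hL.pow γ 2
      have h3 : (L (γ ^ 2) : ℝ) ≤ 2 * L γ := by exact_mod_cast this
      simp only [pow_zero, hL.one, zero_add, pow_one, Nat.cast_zero]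
      linarith
    | succ n ih =>
      have h := hyp γ (γ ^ (n + 1)) γ⁻¹
      have e1 : γ⁻¹ * γ ^ (n + 1) = γ ^ n := by group
      have e2 : (γ ^ (n + 1))⁻¹ * γ⁻¹ = (γ ^ (n + 1 + 1))⁻¹ := by group
      have e3 : γ⁻¹ * γ⁻¹ = (γ ^ 2)⁻¹ := by group
      simp only [gpr, e1, e2, e3, hL.inv] at h
      rcases min_choice (((L γ : ℝ) + L (γ ^ (n + 1)) - L (γ ^ n)) / 2)
        (((L (γ ^ (n + 1)) : ℝ) + L γ - L (γ ^ (n + 1 + 1))) / 2) with a | a <;> rw [a] at h <;>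
        linarith
  have mono : ∀ n m : ℕ, (L (γ ^ n) : ℝ) + m ≤ L (γ ^ (n + m)) := by
    intro n m
    induction m with
    | zero => simp
    | succ m ih =>
      have := step (n + m)
      rw [← add_assoc]
      push_cast
      linarith
  have m0 : ∀ m : ℕ, (m : ℝ) ≤ L (γ ^ m) := fun m => by
    have := mono 0 m
    simpa [hL.one] using this
  rcases le_total i j with h | h
  · obtain ⟨k, rfl⟩ := Nat.exists_eq_add_of_le h
    have e : (γ ^ i)⁻¹ * γ ^ (i + k) = γ ^ k := by group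
    have a := mono k i
    rw [add_comm k i] at a
    have b := m0 i
    rw [min_eq_left h, gpr, e]
    linarith
  · obtain ⟨k, rfl⟩ := Nat.exists_eq_add_of_le h
    have e : (γ ^ (j + k))⁻¹ * γ ^ j = (γ ^ k)⁻¹ := by group
    have a := mono k j
    rw [add_comm k j] at a
    have b := m0 j
    rw [min_eq_right h, gpr, e, hL.inv]
    linarith

theorem conv {L : G → ℕ} (hL : IsLen L) (δ : ℝ)
    (hyp : ∀ x y z, min (gpr L x y) (gpr L y z) - δ ≤ gpr L x z) (β : G) (q : ℕ) (hq : 0 < q)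
    (c C : ℝ) (hc : 0 < c) (hβ : ∀ n : ℕ, c * n - C ≤ L (β ^ (q * n))) (K : ℝ) :
    ∃ N : ℕ, ∀ a b : ℕ, N ≤ a → N ≤ b → K ≤ gpr L (β ^ a) (β ^ b) := by
  have hδ : 0 ≤ δ := by
    have := hyp 1 1 1
    rw [min_self] at this
    linarith
  obtain ⟨k, hk, h2⟩ : ∃ k : ℕ, 0 < k ∧ (L (β ^ k) : ℝ) + (2 * δ + 1) ≤ L ((β ^ k) ^ 2) := by
    by_contra hcon
    push Not at hcon
    have h1 : ∀ j : ℕ, (L (β ^ (q * 2 ^ j)) : ℝ) ≤ L (β ^ q) + j * (2 * δ + 1) := by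
      intro j
      induction j with
      | zero => simp
      | succ j ih =>
        have := hcon (q * 2 ^ j) (by positivity)
        rw [← pow_mul, mul_assoc, ← pow_succ] at this
        push_cast
        linarith
    obtain ⟨j, hj⟩ := exists_nat_gt ((L (β ^ q) + C + (2 * δ + 1)) / c)
    have h3 := h1 (2 * j + 2)
    have h4 := hβ (2 ^ (2 * j + 2))
    have h5 : ((2 * j + 2 + 1 : ℕ) : ℝ) * j ≤ ((2 ^ (2 * j + 2) : ℕ) : ℝ) := by
      have a : j < 2 ^ j := Nat.lt_two_pow_self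
      have b : j + 2 < 2 ^ (j + 2) := Nat.lt_two_pow_self
      have d : 2 * j + 3 ≤ 2 ^ (j + 2) := by
        rw [pow_add]
        omega
      have e : (2 * j + 2 + 1) * j ≤ 2 ^ (2 * j + 2) := by
        calc (2 * j + 2 + 1) * j ≤ 2 ^ (j + 2) * 2 ^ j := Nat.mul_le_mul d a.le
          _ = 2 ^ (2 * j + 2) := by rw [← pow_add]; congr 1; omega
      exact_mod_cast e
    rw [div_lt_iff₀ hc] at hj
    have hC : 0 ≤ (L (β ^ q) : ℝ) + C := by
      have := hβ 0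
      simp only [Nat.cast_zero, mul_zero, pow_zero, hL.one] at this
      have : (0 : ℝ) ≤ L (β ^ q) := Nat.cast_nonneg _
      linarith
    push_cast at h3 h4 h5
    have hj0 : (0 : ℝ) ≤ j := Nat.cast_nonneg _
    nlinarith [mul_le_mul_of_nonneg_left h5 hc.le]
  obtain ⟨M, hM⟩ := exists_nat_ge (K + 2 * (k * L β))
  refine ⟨k * M, fun a b ha hb => ?_⟩
  have e : ∀ a : ℕ, β ^ a = (β ^ k) ^ (a / k) * β ^ (a % k) := fun a => by
    rw [← pow_mul, ← pow_add, Nat.div_add_mod]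
  have r : ∀ a : ℕ, (L (β ^ (a % k)) : ℝ) ≤ k * L β := fun a => by
    have := (hL.pow β (a % k)).trans (Nat.mul_le_mul_right _ (Nat.mod_lt a hk).le)
    exact_mod_cast this
  have d : ∀ a : ℕ, k * M ≤ a → M ≤ a / k := fun a h =>
    (Nat.le_div_iff_mul_le hk).mpr (by rwa [mul_comm])
  have h3 := chain hL δ hδ hyp _ h2 (a / k) (b / k)
  have h4 := gpr_pert hL ((β ^ k) ^ (a / k)) ((β ^ k) ^ (b / k)) (β ^ (a % k)) (β ^ (b % k))
  rw [← e, ← e] at h4
  have h5 : (M : ℝ) ≤ ((min (a / k) (b / k) : ℕ) : ℝ) := by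
    exact_mod_cast le_min (d a ha) (d b hb)
  linarith [r a, r b]

open Pointwise in
theorem isLen_word (S : Set G) (hS : Subgroup.closure S = ⊤) :
    IsLen (fun g => sInf {n : ℕ | g ∈ (S ∪ S⁻¹) ^ n}) ∧
      ∀ g, g ∈ (S ∪ S⁻¹) ^ (sInf {n : ℕ | g ∈ (S ∪ S⁻¹) ^ n}) := by
  have hinv : ∀ n : ℕ, ∀ g, g ∈ (S ∪ S⁻¹) ^ n → g⁻¹ ∈ (S ∪ S⁻¹) ^ n := by
    intro n g hg
    have : (S ∪ S⁻¹)⁻¹ = S ∪ S⁻¹ := by rw [Set.union_inv, inv_inv, Set.union_comm]
    rw [← this, inv_pow]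
    exact Set.inv_mem_inv.mpr hg
  have hne : ∀ g, {n : ℕ | g ∈ (S ∪ S⁻¹) ^ n}.Nonempty := by
    intro g
    have hg : g ∈ Subgroup.closure S := hS ▸ Subgroup.mem_top g
    induction hg using Subgroup.closure_induction with
    | mem x hx => exact ⟨1, by simp [hx]⟩
    | one => exact ⟨0, by simp⟩
    | mul x y _ _ hx hy =>
      obtain ⟨a, ha⟩ := hx
      obtain ⟨b, hb⟩ := hy
      exact ⟨a + b, by rw [Set.mem_setOf_eq, pow_add]; exact Set.mul_mem_mul ha hb⟩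
    | inv x _ hx =>
      obtain ⟨a, ha⟩ := hx
      exact ⟨a, hinv a x ha⟩
  refine ⟨⟨?_, fun g => ?_, fun g h => ?_⟩, fun g => Nat.sInf_mem (hne g)⟩
  · exact Nat.le_zero.mp (Nat.sInf_le (by simp))
  · congr 1
    ext n
    exact ⟨fun h => by simpa using hinv n _ h, hinv n g⟩
  · apply Nat.sInf_le
    rw [Set.mem_setOf_eq, pow_add]
    exact Set.mul_mem_mul (Nat.sInf_mem (hne g)) (Nat.sInf_mem (hne h))

end Hyp

end Pool.Agent.H.MP_98b561_al
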