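import Pool.Agent.H.MP_98b561_al.A

set_option autoImplicit false

namespace Pool.Agent.H.MP_98b561_al

abbrev E : Type := (ℤ × ℤ) × ℕ
abbrev V : Type := ℕ × List E

/-- the parent map -/
def p : V → V
  | (n, []) => (n + 1, [])
  | (n, a :: l) => (n, (a :: l).dropLast)

@[simp] theorem p_nil (n : ℕ) : p (n, []) = (n + 1, []) := rfl
@[simp] theorem p_one (n : ℕ) (a : E) : p (n, [a]) = (n, []) := rfl
@[simp] theorem p_two (n : ℕ) (a b : E) (l : List E) :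
    p (n, a :: b :: l) = (n, a :: (b :: l).dropLast) := rfl
theorem p_cons (n : ℕ) (a : E) (l : List E) : p (n, a :: l) = (n, (a :: l).dropLast) := rfl

def GG : Subgroup (Equiv.Perm V) where
  carrier := {g | ∀ x, g (p x) = p (g x)}
  mul_mem' := fun {a b} ha hb x => by simp only [Equiv.Perm.mul_apply, hb x, ha (b x)]
  one_mem' := fun _ => rfl
  inv_mem' := fun {a} ha x => by
    apply a.injective
    rw [ha (a⁻¹ x)]
    simp

abbrev G : Type := GG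

theorem cm (g : G) (x : V) : g.1 (p x) = p (g.1 x) := g.2 x

theorem cmi (g : G) (n : ℕ) (x : V) : g.1 (p^[n] x) = p^[n] (g.1 x) := by
  induction n with
  | zero => rfl
  | succ n ih => rw [Function.iterate_succ_apply', Function.iterate_succ_apply', cm, ih]

@[simp] theorem mul_ap (g h : G) (x : V) : (g * h).1 x = g.1 (h.1 x) := rfl
@[simp] theorem one_ap (x : V) : (1 : G).1 x = x := rfl
@[simp] theorem inv_ap (g : G) (x : V) : (g⁻¹).1 (g.1 x) = x := g.1.symm_apply_apply x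
@[simp] theorem ap_inv (g : G) (x : V) : g.1 ((g⁻¹).1 x) = x := g.1.apply_symm_apply x

theorem gext {g h : G} (e : ∀ x, g.1 x = h.1 x) : g = h := Subtype.ext (Equiv.ext e)

def mkG (f g : V → V) (h1 : ∀ x, g (f x) = x) (h2 : ∀ x, f (g x) = x)
    (h3 : ∀ x, f (p x) = p (f x)) : G := ⟨⟨f, g, h1, h2⟩, h3⟩

def InU (g : G) : Prop := ∀ n, g.1 (n, []) = (n, [])

theorem InU.inv {g : G} (h : InU g) : InU g⁻¹ := fun n => by
  conv_lhs => rw [← h n]
  exact inv_ap _ _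

theorem InU.mul {g h : G} (a : InU g) (b : InU h) : InU (g * h) := fun n => by
  rw [mul_ap, b, a]

theorem sig0 {g : G} (h : InU g) (n : ℕ) (a : E) :
    ∃ b : E, ∀ l, ∃ l', g.1 (n, a :: l) = (n, b :: l') := by
  have h1 : ∃ b, g.1 (n, [a]) = (n, [b]) := by
    have e := cm g (n, [a])
    rw [p_one, h] at e
    rcases hx : g.1 (n, [a]) with ⟨m, _ | ⟨b, _ | ⟨c, l⟩⟩⟩
    · have := g.1.injective (hx.trans (h m).symm)
      simp at this
    · rw [hx, p_one] at e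
      exact ⟨b, by rw [(Prod.mk.inj e).1]⟩
    · rw [hx, p_two] at e
      simp at e
  obtain ⟨b, hb⟩ := h1
  refine ⟨b, fun l => ?_⟩
  induction hk : l.length generalizing l with
  | zero =>
    rw [List.length_eq_zero_iff.mp hk]
    exact ⟨[], hb⟩
  | succ k ih =>
    rcases l with _ | ⟨c, l⟩
    · simp at hk
    · obtain ⟨l', e⟩ := ih (c :: l).dropLast (by simpa using hk)
      rw [← p_two, cm] at e
      rcases hx : g.1 (n, a :: c :: l) with ⟨m, _ | ⟨d, _ | ⟨d', l2⟩⟩⟩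
      · rw [hx] at e
        simp at e
      · rw [hx] at e
        simp at e
      · rw [hx, p_two] at e
        simp only [Prod.mk.injEq, List.cons.injEq] at e
        exact ⟨d' :: l2, by rw [e.1, e.2.1]⟩

theorem sig {g : G} (h : InU g) : ∃ σ : ℕ → Equiv.Perm E,
    ∀ n a l, ∃ l', g.1 (n, a :: l) = (n, σ n a :: l') := by
  choose s hs using sig0 h
  choose t ht using sig0 h.inv
  refine ⟨fun n => ⟨s n, t n, fun a => ?_, fun a => ?_⟩, hs⟩
  · obtain ⟨l, e⟩ := hs n a []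
    obtain ⟨l', e'⟩ := ht n (s n a) l
    rw [← e, inv_ap] at e'
    simp only [Prod.mk.injEq, List.cons.injEq] at e'
    exact e'.2.1.symm
  · obtain ⟨l, e⟩ := ht n a []
    obtain ⟨l', e'⟩ := hs n (t n a) l
    rw [← e, ap_inv] at e'
    simp only [Prod.mk.injEq, List.cons.injEq] at e'
    exact e'.2.1.symm

def liftF (σ : ℕ → Equiv.Perm E) : V → V
  | (n, []) => (n, [])
  | (n, a :: l) => (n, σ n a :: l)

def lift : (ℕ → Equiv.Perm E) →* G := MonoidHom.mk'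
  (fun σ => mkG (liftF σ) (liftF σ⁻¹)
    (by rintro ⟨n, _ | ⟨a, l⟩⟩ <;> simp [liftF])
    (by rintro ⟨n, _ | ⟨a, l⟩⟩ <;> simp [liftF])
    (by rintro ⟨n, _ | ⟨a, _ | ⟨b, l⟩⟩⟩ <;> simp [liftF]))
  (fun σ τ => gext (by rintro ⟨n, _ | ⟨a, l⟩⟩ <;> rfl))

@[simp] theorem lift_nil (σ : ℕ → Equiv.Perm E) (n : ℕ) : (lift σ).1 (n, []) = (n, []) := rfl
@[simp] theorem lift_cons (σ : ℕ → Equiv.Perm E) (n : ℕ) (a : E) (l : List E) :
    (lift σ).1 (n, a :: l) = (n, σ n a :: l) := rfl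

def PS (S : Set E) : Subgroup G where
  carrier := {g | InU g ∧ ∀ n a l, a ∉ S → g.1 (n, a :: l) = (n, a :: l)}
  mul_mem' := fun {a b} ha hb => ⟨ha.1.mul hb.1, fun n c l hc => by
    rw [mul_ap, hb.2 n c l hc, ha.2 n c l hc]⟩
  one_mem' := ⟨fun _ => rfl, fun _ _ _ _ => rfl⟩
  inv_mem' := fun {a} ha => ⟨ha.1.inv, fun n c l hc => by
    conv_lhs => rw [← ha.2 n c l hc]
    exact inv_ap _ _⟩

def Sg : Set E := {a | a.1 = 0}

theorem PS_in (g : PS Sg) (n k : ℕ) : ∃ k', ∀ l, ∃ l',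
    g.1.1 (n, (0, k) :: l) = (n, (0, k') :: l') := by
  obtain ⟨b, hb⟩ := sig0 g.2.1 n (0, k)
  have : b ∈ Sg := by
    by_contra h
    obtain ⟨l', e⟩ := hb []
    have := g.1.1.injective (e.trans (g.2.2 n b l' h).symm)
    simp only [Prod.mk.injEq, List.cons.injEq, true_and] at this
    exact h (this.1 ▸ rfl)
  obtain ⟨b1, b2⟩ := b
  obtain rfl : b1 = 0 := this
  exact ⟨b2, hb⟩

def mv (μ : ℤ × ℤ) : V → V
  | (n, []) => (n, [])
  | (n, a :: l) => (n, (μ, a.2) :: l)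

theorem mv_p (μ : ℤ × ℤ) (x : V) : mv μ (p x) = p (mv μ x) := by
  rcases x with ⟨n, _ | ⟨a, _ | ⟨b, l⟩⟩⟩ <;> rfl

def PhiF (f : ℤ × ℤ → PS Sg) : V → V
  | (n, []) => (n, [])
  | (n, a :: l) => mv a.1 ((f a.1).1.1 (n, (0, a.2) :: l))

theorem PhiF_mul (f g : ℤ × ℤ → PS Sg) (x : V) : PhiF (f * g) x = PhiF f (PhiF g x) := by
  rcases x with ⟨n, _ | ⟨⟨μ, k⟩, l⟩⟩
  · rfl
  · obtain ⟨k', h⟩ := PS_in (g μ) n k
    obtain ⟨l', e⟩ := h l
    simp only [PhiF, e, mv, Pi.mul_apply, Subgroup.coe_mul, Equiv.Perm.mul_apply]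

theorem PhiF_one (x : V) : PhiF 1 x = x := by
  rcases x with ⟨n, _ | ⟨⟨μ, k⟩, l⟩⟩ <;> rfl

def Phi : (ℤ × ℤ → PS Sg) →* G := MonoidHom.mk'
  (fun f => mkG (PhiF f) (PhiF f⁻¹)
    (fun x => by rw [← PhiF_mul, inv_mul_cancel, PhiF_one])
    (fun x => by rw [← PhiF_mul, mul_inv_cancel, PhiF_one])
    (by
      rintro ⟨n, _ | ⟨⟨μ, k⟩, _ | ⟨b, l⟩⟩⟩
      · rfl
      · simp only [PhiF, p_one]
        rw [← mv_p, ← cm, p_one, (f μ).2.1]
        rfl
      · simp only [PhiF, p_two]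
        rw [← mv_p, ← cm, p_two]))
  (fun f g => gext (PhiF_mul f g))

theorem Phi_ap (f : ℤ × ℤ → PS Sg) (x : V) : (Phi f).1 x = PhiF f x := rfl

def TT : Equiv.Perm (ℤ × ℤ) →* G := MonoidHom.mk'
  (fun π => lift (fun _ => π.prodCongr (Equiv.refl ℕ)))
  (fun _ _ => gext (by rintro ⟨n, _ | ⟨a, l⟩⟩ <;> rfl))

theorem TT_ap (π : Equiv.Perm (ℤ × ℤ)) (n k : ℕ) (μ : ℤ × ℤ) (l : List E) :
    (TT π).1 (n, (μ, k) :: l) = (n, (π μ, k) :: l) := rfl

theorem TT_Phi (π : Equiv.Perm (ℤ × ℤ)) (f : ℤ × ℤ → PS Sg) :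
    (TT π)⁻¹ * Phi f * TT π = Phi (fun μ => f (π μ)) := by
  rw [mul_assoc, inv_mul_eq_iff_eq_mul]
  apply gext
  rintro ⟨n, _ | ⟨⟨μ, k⟩, l⟩⟩
  · rfl
  · obtain ⟨k', h⟩ := PS_in (f (π μ)) n k
    obtain ⟨l', e⟩ := h l
    simp only [mul_ap, TT_ap, Phi_ap, PhiF, e, mv]

theorem Phi_single (h : PS Sg) : Phi (fun μ => if μ = 0 then h else 1) = h.1 := by
  apply gext
  rintro ⟨n, _ | ⟨⟨μ, k⟩, l⟩⟩
  · exact (h.2.1 n).symm
  · by_cases hμ : μ = 0
    · subst hμ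
      obtain ⟨k', h'⟩ := PS_in h n k
      obtain ⟨l', e⟩ := h' l
      simp only [Phi_ap, PhiF, if_true, e, mv]
    · simp only [Phi_ap, PhiF, if_neg hμ]
      rw [h.2.2 n (μ, k) l hμ]
      rfl

def tt : Equiv.Perm (ℤ × ℤ) where
  toFun μ := if μ.1 = 0 then (μ.1, μ.2 - 1) else μ
  invFun μ := if μ.1 = 0 then (μ.1, μ.2 + 1) else μ
  left_inv μ := by by_cases h : μ.1 = 0 <;> simp [h, Prod.ext_iff]
  right_inv μ := by by_cases h : μ.1 = 0 <;> simp [h, Prod.ext_iff]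

theorem bdd_Sg {L : G → ℕ} (hL : IsLen L) : ∃ C, ∀ g ∈ PS Sg, L g ≤ C := by
  by_contra hcon
  push Not at hcon
  choose h h1 h2 using fun n : ℕ => hcon (n * n)
  let h' : ℕ → PS Sg := fun n => ⟨h n, h1 n⟩
  let f : ℤ × ℤ → PS Sg := fun μ => if 0 ≤ μ.2 then h' μ.1.toNat else 1
  let s : Equiv.Perm (ℤ × ℤ) := Equiv.addLeft (1, 0)
  have hs : ∀ (n : ℕ) (μ : ℤ × ℤ), (s ^ n) μ = (n + μ.1, μ.2) := by
    intro n
    induction n with
    | zero => simp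
    | succ n ih =>
      intro μ
      rw [pow_succ', Equiv.Perm.mul_apply, ih]
      simp [s, Prod.ext_iff]
      ring
  have key : ∀ n : ℕ, h n = ((TT s ^ n)⁻¹ * Phi f * TT s ^ n) *
      ((TT tt)⁻¹ * ((TT s ^ n)⁻¹ * Phi f * TT s ^ n)⁻¹ * TT tt) := by
    intro n
    rw [← map_pow, TT_Phi, ← map_inv Phi, TT_Phi, ← map_mul]
    refine (Phi_single (h' n)).symm.trans ?_
    congr 1
    funext μ
    obtain ⟨a, b⟩ := μ
    simp only [Pi.mul_apply, Pi.inv_apply, hs, f, tt, Equiv.coe_fn_mk, Prod.mk_eq_zero]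
    by_cases ha : a = 0
    · subst ha
      simp only [if_true, true_and, add_zero, Int.toNat_natCast]
      by_cases hb : b = 0
      · subst hb
        simp
      · rw [if_neg hb]
        by_cases hb' : 0 ≤ b
        · have : 0 ≤ b - 1 := by omega
          simp only [if_pos hb', if_pos this, mul_inv_cancel]
        · have : ¬ 0 ≤ b - 1 := by omega
          simp only [if_neg hb', if_neg this, mul_inv_cancel]
    · simp [ha]
  have b1 : ∀ n : ℕ, L ((TT s ^ n)⁻¹ * Phi f * TT s ^ n) ≤ 2 * (n * L (TT s)) + L (Phi f) := by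
    intro n
    have a1 := hL.mul ((TT s ^ n)⁻¹ * Phi f) (TT s ^ n)
    have a2 := hL.mul (TT s ^ n)⁻¹ (Phi f)
    have a3 := hL.pow (TT s) n
    rw [hL.inv] at a2
    omega
  have b2 : ∀ n : ℕ, L (h n) ≤ 4 * (n * L (TT s)) + 2 * L (Phi f) + 2 * L (TT tt) := by
    intro n
    rw [key n]
    have a0 := b1 n
    generalize (TT s ^ n)⁻¹ * Phi f * TT s ^ n = w at a0 ⊢
    have a1 := hL.mul w ((TT tt)⁻¹ * w⁻¹ * TT tt)
    have a2 := hL.mul ((TT tt)⁻¹ * w⁻¹) (TT tt)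
    have a3 := hL.mul (TT tt)⁻¹ w⁻¹
    rw [hL.inv, hL.inv] at a3
    omega
  have c1 := b2 (4 * L (TT s) + 2 * L (Phi f) + 2 * L (TT tt) + 1)
  have c2 := h2 (4 * L (TT s) + 2 * L (Phi f) + 2 * L (TT tt) + 1)
  nlinarith [Nat.zero_le (L (TT s)), Nat.zero_le (L (Phi f)), Nat.zero_le (L (TT tt))]

theorem inf_of (S : Set E) (μ : ℤ × ℤ) (i : ℕ) (h : ∀ n, (μ, 3 * n + i) ∈ S) : S.Infinite :=
  Set.infinite_of_injective_forall_mem (f := fun n : ℕ => ((μ, 3 * n + i) : E))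
    (fun a b hab => by
      simp only [Prod.mk.injEq, true_and] at hab
      omega) h

theorem bdd_PS {L : G → ℕ} (hL : IsLen L) (S : Set E) (h1 : S.Infinite) (h2 : Sᶜ.Infinite) :
    ∃ C, ∀ g ∈ PS S, L g ≤ C := by
  obtain ⟨C, hC⟩ := bdd_Sg hL
  obtain ⟨π, hπ⟩ := moi S Sg h1 h2 (inf_of _ 0 0 (fun _ => rfl))
    (inf_of _ (1, 0) 0 (fun _ => by simp [Sg]))
  refine ⟨C + 2 * L (lift (fun _ => π)), fun g hg => ?_⟩
  have h3 : lift (fun _ => π) * g * lift (fun _ => π⁻¹) ∈ PS Sg := by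
    refine ⟨fun n => by simp [hg.1 n], fun n a l ha => ?_⟩
    have : π⁻¹ a ∉ S := fun h => ha (by simpa using hπ _ h)
    simp only [mul_ap, lift_cons]
    rw [hg.2 n _ l this]
    simp
  have e : lift (fun _ => π⁻¹) = (lift (fun _ => π))⁻¹ := by
    rw [← map_inv]
    rfl
  rw [e] at h3
  have a0 := hC _ h3
  generalize lift (fun _ => π) = w at a0 ⊢
  have e2 : g = w⁻¹ * (w * g * w⁻¹) * w := by group
  have a1 := hL.mul (w⁻¹ * (w * g * w⁻¹)) w
  have a2 := hL.mul w⁻¹ (w * g * w⁻¹)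
  rw [← e2] at a1
  rw [hL.inv] at a2
  omega

open Classical in
noncomputable def resF (S : Set E) (k : G) : V → V
  | (n, []) => (n, [])
  | (n, a :: l) => if a ∈ S then k.1 (n, a :: l) else (n, a :: l)

theorem split (S : Set E) (k : G) (hk : InU k) (h : ∀ n a l, ∃ l', k.1 (n, a :: l) = (n, a :: l')) :
    ∃ k1 ∈ PS S, ∃ k2 ∈ PS Sᶜ, k = k1 * k2 := by
  have h' : ∀ n a l, ∃ l', (k⁻¹).1 (n, a :: l) = (n, a :: l') := by
    intro n a l
    obtain ⟨b, hb⟩ := sig0 hk.inv n a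
    obtain ⟨l', e⟩ := hb l
    obtain ⟨l2, e2⟩ := h n b l'
    rw [← e, ap_inv] at e2
    simp only [Prod.mk.injEq, List.cons.injEq, true_and] at e2
    exact ⟨l', by rw [e, e2.1]⟩
  let k1 : G := mkG (resF S k) (resF S k⁻¹)
    (by
      rintro ⟨n, _ | ⟨a, l⟩⟩
      · rfl
      · by_cases ha : a ∈ S
        · obtain ⟨l', e⟩ := h n a l
          simp only [resF, if_pos ha, e]
          rw [← e, inv_ap]
        · simp only [resF, if_neg ha])
    (by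
      rintro ⟨n, _ | ⟨a, l⟩⟩
      · rfl
      · by_cases ha : a ∈ S
        · obtain ⟨l', e⟩ := h' n a l
          simp only [resF, if_pos ha, e]
          rw [← e, ap_inv]
        · simp only [resF, if_neg ha])
    (by
      rintro ⟨n, _ | ⟨a, _ | ⟨b, l⟩⟩⟩
      · rfl
      · by_cases ha : a ∈ S
        · simp only [resF, p_one, if_pos ha]
          rw [← cm, p_one, hk]
        · simp only [resF, p_one, if_neg ha]
      · by_cases ha : a ∈ S
        · simp only [resF, p_two, if_pos ha]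
          rw [← cm, p_two]
        · simp only [resF, p_two, if_neg ha])
  have e1 : ∀ x, k1.1 x = resF S k x := fun _ => rfl
  have m1 : k1 ∈ PS S := ⟨fun _ => rfl, fun n a l ha => by simp only [e1, resF, if_neg ha]⟩
  refine ⟨k1, m1, k1⁻¹ * k, ⟨m1.1.inv.mul hk, fun n a l ha => ?_⟩, by group⟩
  have ha' : a ∈ S := not_not.mp ha
  have : k.1 (n, a :: l) = k1.1 (n, a :: l) := by simp only [e1, resF, if_pos ha']
  rw [mul_ap, this, inv_ap]

theorem bdd_U {L : G → ℕ} (hL : IsLen L) : ∃ C, ∀ g, InU g → L g ≤ C := by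
  let A : Set E := {a | a.2 % 3 = 0}
  let B : Set E := {a | a.2 % 3 = 1}
  let C : Set E := {a | a.2 % 3 = 2}
  have hA : A.Infinite := inf_of _ 0 0 (fun n => by simp [A])
  have hB : B.Infinite := inf_of _ 0 1 (fun n => by simp [B])
  have hC : C.Infinite := inf_of _ 0 2 (fun n => by simp [C])
  obtain ⟨c1, h1⟩ := bdd_PS hL (A ∪ C) (hA.mono Set.subset_union_left)
    (inf_of _ 0 1 (fun n => by simp [A, C]))
  obtain ⟨c2, h2⟩ := bdd_PS hL (A ∪ B) (hA.mono Set.subset_union_left)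
    (inf_of _ 0 2 (fun n => by simp [A, B]))
  obtain ⟨c3, h3⟩ := bdd_PS hL (B ∪ C) (hB.mono Set.subset_union_left)
    (inf_of _ 0 0 (fun n => by simp [B, C]))
  obtain ⟨c4, h4⟩ := bdd_PS hL (B ∪ C)ᶜ (inf_of _ 0 0 (fun n => by simp [B, C]))
    (by rw [compl_compl]; exact hB.mono Set.subset_union_left)
  refine ⟨c1 + c2 + c3 + c3 + c2 + c3 + (c3 + c4), fun g hg => ?_⟩
  obtain ⟨σ, hσ⟩ := sig hg
  choose π1 π2 π3 π4 q u1 u2 u3 u4 u5 e using fun n => decomp A B C hA hB hC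
    (Set.disjoint_left.mpr (fun a (x : a.2 % 3 = 0) (y : a.2 % 3 = 1) => by omega))
    (Set.disjoint_left.mpr (fun a (x : a.2 % 3 = 0) (y : a.2 % 3 = 2) => by omega))
    (Set.disjoint_left.mpr (fun a (x : a.2 % 3 = 1) (y : a.2 % 3 = 2) => by omega))
    (fun a => by simp only [A, B, C, Set.mem_setOf_eq]; omega) (σ n)
  have hm : ∀ (S : Set E) (π : ℕ → Equiv.Perm E), (∀ n, Sup S (π n)) → lift π ∈ PS S :=
    fun S π h => ⟨fun _ => rfl, fun n a l ha => by rw [lift_cons, h n a ha]⟩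
  have e1 : σ = π1⁻¹ * π2⁻¹ * π3⁻¹ * π4 * q * π4⁻¹ := funext e
  obtain ⟨k1, m1, k2, m2, e2⟩ := split (B ∪ C) ((lift σ⁻¹) * g)
    (fun n => by rw [mul_ap, hg, lift_nil]) (fun n a l => by
      obtain ⟨l', e3⟩ := hσ n a l
      exact ⟨l', by rw [mul_ap, e3, lift_cons]; simp⟩)
  have e3 : g = (lift π1)⁻¹ * (lift π2)⁻¹ * (lift π3)⁻¹ * lift π4 * lift q * (lift π4)⁻¹ *
      (k1 * k2) := by
    rw [← e2, ← map_inv, ← map_inv, ← map_inv, ← map_inv, ← map_mul, ← map_mul, ← map_mul,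
      ← map_mul, ← map_mul, ← e1, map_inv, mul_inv_cancel_left]
  have a1 := h1 _ (hm _ _ u1)
  have a2 := h2 _ (hm _ _ u2)
  have a3 := h3 _ (hm _ _ u3)
  have a4 := h3 _ (hm _ _ u4)
  have a5 := h2 _ (hm _ _ u5)
  have a6 := h3 _ m1
  have a7 := h4 _ m2
  have ad : ∀ (x y : G) (a b : ℕ), L x ≤ a → L y ≤ b → L (x * y) ≤ a + b := fun x y a b u v =>
    (hL.mul x y).trans (Nat.add_le_add u v)
  rw [e3]
  refine ad _ _ _ _ (ad _ _ _ _ (ad _ _ _ _ (ad _ _ _ _ (ad _ _ _ _ (ad _ _ _ _ ?_ ?_) ?_) a4) a5)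
    ?_) (ad _ _ _ _ a6 a7) <;> rwa [hL.inv]

end Pool.Agent.H.MP_98b561_al
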