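import Pool.Agent.H.MP_98b561_al.B

set_option autoImplicit false

namespace Pool.Agent.H.MP_98b561_al

def o : V := (0, [])

def lev (x : V) : ℤ := (x.1 : ℤ) - x.2.length

theorem lev_o : lev o = 0 := rfl

theorem lev_p (x : V) : lev (p x) = lev x + 1 := by
  rcases x with ⟨n, _ | ⟨a, l⟩⟩
  · simp [lev]
  · simp [lev, p_cons]
    ring

theorem lev_it (a : ℕ) (x : V) : lev (p^[a] x) = lev x + a := by
  induction a with
  | zero => simp
  | succ a ih => rw [Function.iterate_succ_apply', lev_p, ih]; push_cast; ring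

theorem it_ray (k n : ℕ) : p^[k] (n, []) = (n + k, []) := by
  induction k with
  | zero => rfl
  | succ k ih => rw [Function.iterate_succ_apply', ih]; rfl

theorem it_le (j n : ℕ) (l : List E) (h : j ≤ l.length) :
    ∃ l2 : List E, p^[j] (n, l) = (n, l2) ∧ l2.length + j = l.length := by
  induction j with
  | zero => exact ⟨l, rfl, rfl⟩
  | succ j ih =>
    obtain ⟨l2, e, e2⟩ := ih (by omega)
    rcases l2 with _ | ⟨a, l2⟩
    · simp at e2
      omega
    · refine ⟨(a :: l2).dropLast, by rw [Function.iterate_succ_apply', e, p_cons], ?_⟩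
      simp at e2 ⊢
      omega

theorem it_len (n : ℕ) (l : List E) : p^[l.length] (n, l) = (n, []) := by
  obtain ⟨l2, e, e2⟩ := it_le l.length n l le_rfl
  rw [e, List.length_eq_zero_iff.mp (by omega : l2.length = 0)]

theorem it_fst (j n m : ℕ) (l l2 : List E) (h : p^[j] (n, l) = (m, l2)) (h2 : l2 ≠ []) : m = n := by
  rcases le_total j l.length with a | a
  · obtain ⟨l3, e, -⟩ := it_le j n l a
    rw [e] at h
    exact (Prod.mk.inj h).1.symm
  · obtain ⟨k, rfl⟩ := Nat.exists_eq_add_of_le' a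
    rw [Function.iterate_add_apply, it_len, it_ray] at h
    exact absurd (Prod.mk.inj h).2.symm h2

def J (x y : V) (k : ℤ) : Prop := ∃ a b : ℕ, p^[a] x = p^[b] y ∧ lev x + a = k

theorem J.lev2 {x y : V} {a b : ℕ} (h : p^[a] x = p^[b] y) : lev x + a = lev y + b := by
  rw [← lev_it, h, lev_it]

theorem J.symm {x y : V} {k : ℤ} (h : J x y k) : J y x k := by
  obtain ⟨a, b, e, e2⟩ := h
  exact ⟨b, a, e.symm, by rw [← J.lev2 e, e2]⟩

theorem J.up {x y : V} {k k' : ℤ} (h : J x y k) (hk : k ≤ k') : J x y k' := by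
  obtain ⟨a, b, e, e2⟩ := h
  obtain ⟨c, rfl⟩ := Int.le.dest hk
  refine ⟨c + a, c + b, by rw [Function.iterate_add_apply, Function.iterate_add_apply, e], ?_⟩
  push_cast
  omega

theorem J.trans {x y z : V} {k : ℤ} (h : J x y k) (h' : J y z k) : J x z k := by
  obtain ⟨a, b, e, e2⟩ := h
  obtain ⟨c, d, f, f2⟩ := h'
  have := J.lev2 e
  obtain rfl : b = c := by omega
  exact ⟨a, d, e.trans f, e2⟩

theorem J_o (n : ℕ) (l : List E) : J o (n, l) n :=
  ⟨n, l.length, by rw [it_len, o, it_ray, zero_add], by simp [lev_o]⟩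

theorem J_ex (x y : V) : ∃ k, J x y k ∧ ∀ k', J x y k' → k ≤ k' := by
  apply Int.exists_least_of_bdd
  · refine ⟨lev x, fun k ⟨a, _, _, e⟩ => by omega⟩
  · exact ⟨max x.1 y.1, ((J_o x.1 x.2).up (le_max_left _ _)).symm.trans
      ((J_o y.1 y.2).up (le_max_right _ _))⟩

noncomputable def ht (x y : V) : ℤ := (J_ex x y).choose

theorem ht_le {x y : V} {k : ℤ} : ht x y ≤ k ↔ J x y k :=
  ⟨fun h => (J_ex x y).choose_spec.1.up h, (J_ex x y).choose_spec.2 k⟩

theorem ht_J (x y : V) : J x y (ht x y) := ht_le.mp le_rfl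

theorem ht_comm (x y : V) : ht x y = ht y x :=
  le_antisymm (ht_le.mpr (ht_J y x).symm) (ht_le.mpr (ht_J x y).symm)

theorem ht_ge (x y : V) : lev x ≤ ht x y := by
  obtain ⟨a, _, _, e⟩ := ht_J x y
  omega

theorem ht_ge' (x y : V) : lev y ≤ ht x y := ht_comm x y ▸ ht_ge y x

theorem ht_tri (x y z : V) : ht x z ≤ max (ht x y) (ht y z) :=
  ht_le.mpr ((ht_le.mp (le_max_left _ _)).trans (ht_le.mp (le_max_right _ _)))

def chi (g : G) : ℤ := lev (g.1 o)

theorem lev_g (g : G) (x : V) : lev (g.1 x) = lev x + chi g := by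
  obtain ⟨a, b, e, -⟩ := ht_J o x
  have h1 := J.lev2 e
  have h2 := congrArg g.1 e
  rw [cmi, cmi] at h2
  have h3 := J.lev2 h2
  rw [lev_o] at h1
  unfold chi
  omega

theorem chi_mul (g h : G) : chi (g * h) = chi g + chi h := by
  have := lev_g g (h.1 o)
  unfold chi at *
  rw [mul_ap]
  omega

theorem chi_one : chi 1 = 0 := rfl

theorem chi_inv (g : G) : chi g⁻¹ = -chi g := by
  have := chi_mul g g⁻¹
  rw [mul_inv_cancel, chi_one] at this
  omega

theorem chi_pow (g : G) (n : ℕ) : chi (g ^ n) = n * chi g := by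
  induction n with
  | zero => simp [chi_one]
  | succ n ih => rw [pow_succ, chi_mul, ih]; push_cast; ring

theorem ht_g' (g : G) (x y : V) : ht (g.1 x) (g.1 y) ≤ ht x y + chi g := by
  obtain ⟨a, b, e, e2⟩ := ht_J x y
  refine ht_le.mpr ⟨a, b, by rw [← cmi, ← cmi, e], ?_⟩
  rw [lev_g]
  omega

theorem ht_g (g : G) (x y : V) : ht (g.1 x) (g.1 y) = ht x y + chi g := by
  have a := ht_g' g x y
  have b := ht_g' g⁻¹ (g.1 x) (g.1 y)
  rw [inv_ap, inv_ap, chi_inv] at b
  omega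

noncomputable def dd (x y : V) : ℤ := 2 * ht x y - lev x - lev y

theorem dd_g (g : G) (x y : V) : dd (g.1 x) (g.1 y) = dd x y := by
  simp only [dd, ht_g, lev_g]
  ring

theorem dd_tri (x y z : V) : dd x z ≤ dd x y + dd y z := by
  have a := ht_tri x y z
  have b := ht_ge y z
  have c := ht_ge' x y
  unfold dd
  omega

theorem dd_comm (x y : V) : dd x y = dd y x := by
  simp only [dd, ht_comm x y]
  ring

theorem dd_self (x : V) : dd x x = 0 := by
  have a : ht x x ≤ lev x := ht_le.mpr ⟨0, 0, rfl, by simp⟩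
  have b := ht_ge x x
  unfold dd
  omega

theorem dd_mid (g h : G) : dd o ((g⁻¹ * h).1 o) = dd (g.1 o) (h.1 o) := by
  rw [← dd_g g, mul_ap, ap_inv]

def sw : List E → List E → List E → List E
  | a :: l, a' :: l', b :: m => Equiv.swap a a' b :: sw l l' m
  | _, _, m => m

theorem sw_sw (l l' m : List E) : sw l l' (sw l l' m) = m := by
  induction m generalizing l l' with
  | nil => rcases l with _ | ⟨a, l⟩ <;> rcases l' with _ | ⟨a', l'⟩ <;> simp [sw]
  | cons b m ih => rcases l with _ | ⟨a, l⟩ <;> rcases l' with _ | ⟨a', l'⟩ <;> simp [sw, ih]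

theorem sw_nil (l l' : List E) : sw l l' [] = [] := by
  rcases l with _ | ⟨a, l⟩ <;> rcases l' with _ | ⟨a', l'⟩ <;> simp [sw]

theorem sw_ne (l l' : List E) (b : E) (m : List E) : ∃ c m', sw l l' (b :: m) = c :: m' := by
  rcases l with _ | ⟨a, l⟩ <;> rcases l' with _ | ⟨a', l'⟩ <;> simp [sw]

theorem sw_drop (l l' m : List E) : sw l l' m.dropLast = (sw l l' m).dropLast := by
  induction m generalizing l l' with
  | nil => simp [sw_nil]
  | cons b m ih =>
    rcases l with _ | ⟨a, l⟩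
    · simp [sw]
    · rcases l' with _ | ⟨a', l'⟩
      · simp [sw]
      · rcases m with _ | ⟨c, m⟩
        · simp [sw, sw_nil]
        · obtain ⟨d, m', e⟩ := sw_ne l l' c m
          have := ih l l'
          rw [e] at this
          simp only [List.dropLast_cons₂, sw, e, this]

theorem sw_self (l l' : List E) (h : l.length = l'.length) : sw l l' l = l' := by
  induction l generalizing l' with
  | nil => rw [sw_nil, List.length_eq_zero_iff.mp h.symm]
  | cons a l ih =>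
    rcases l' with _ | ⟨a', l'⟩
    · simp at h
    · simp [sw, ih l' (by simpa using h)]

theorem homog (n : ℕ) (l l' : List E) (h : l.length = l'.length) :
    ∃ u : G, InU u ∧ u.1 (n, l) = (n, l') := by
  refine ⟨mkG (fun x => (x.1, sw l l' x.2)) (fun x => (x.1, sw l l' x.2))
    (fun x => by simp [sw_sw]) (fun x => by simp [sw_sw]) ?_, fun m => ?_, ?_⟩
  · rintro ⟨m, _ | ⟨b, k⟩⟩
    · simp [sw_nil]
    · obtain ⟨d, m', e⟩ := sw_ne l l' b k
      simp only [p_cons, sw_drop, e]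
  · change (m, sw l l' []) = _
    rw [sw_nil]
  · change (n, sw l l' l) = _
    rw [sw_self l l' h]

noncomputable def eps : Option E ≃ E := (nonempty_equiv_of_countable).some

noncomputable def bF : V → V
  | (0, l) => (0, eps none :: l)
  | (1, []) => (0, [])
  | (1, b :: l) => (0, eps (some b) :: l)
  | (n + 2, l) => (n + 1, l)

noncomputable def aF : V → V
  | (0, []) => (1, [])
  | (0, a :: l) => (eps.symm a).elim (0, l) (fun b => (1, b :: l))
  | (n + 1, l) => (n + 2, l)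

noncomputable def be : G := mkG bF aF
  (by rintro ⟨_ | _ | n, _ | ⟨b, l⟩⟩ <;> simp [aF, bF])
  (by
    rintro ⟨_ | n, _ | ⟨a, l⟩⟩
    · rfl
    · obtain ⟨c, rfl⟩ := eps.surjective a
      rcases c with _ | c <;> simp [aF, bF]
    · rfl
    · rfl)
  (by rintro ⟨_ | _ | n, _ | ⟨a, _ | ⟨b, l⟩⟩⟩ <;> rfl)

theorem be_ap (x : V) : be.1 x = bF x := rfl

theorem be_pow_o (k : ℕ) : (be ^ k).1 o = (0, List.replicate k (eps none)) := by
  induction k with
  | zero => rfl
  | succ k ih => rw [pow_succ', mul_ap, ih]; rfl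

theorem chi_be : chi be = -1 := rfl

theorem be_fst (n : ℕ) (l : List E) : ∃ l', (be ^ n).1 (n, l) = (0, l') := by
  induction n generalizing l with
  | zero => exact ⟨l, rfl⟩
  | succ n ih =>
    rw [pow_succ, mul_ap]
    rcases n with _ | n
    · rcases l with _ | ⟨b, l⟩
      · exact ⟨_, rfl⟩
      · exact ⟨_, rfl⟩
    · exact ih l

theorem transG (x : V) : ∃ g : G, g.1 o = x := by
  obtain ⟨n, l⟩ := x
  obtain ⟨l', e⟩ := be_fst n l
  obtain ⟨u, -, hu⟩ := homog 0 (List.replicate l'.length (eps none)) l' (by simp)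
  exact ⟨(be ^ n)⁻¹ * u * be ^ l'.length, by rw [mul_ap, mul_ap, be_pow_o, hu, ← e, inv_ap]⟩

theorem inU_of {g : G} (h : g.1 o = o) : InU g := fun n => by
  have := cmi g n o
  rw [h, o, it_ray, zero_add] at this
  exact this

def X0 : Set G := {g | dd o (g.1 o) ≤ 1}

theorem nbr (x : V) (h : 1 ≤ dd o x) : ∃ y, dd o y ≤ 1 ∧ dd y x ≤ dd o x - 1 := by
  obtain ⟨a, b, e, e2⟩ := ht_J o x
  have h1 := J.lev2 e
  rw [lev_o] at h1 e2
  rcases a with _ | a
  · rcases b with _ | b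
    · exfalso
      simp only [dd, lev_o] at h
      omega
    · have l1 := lev_it b x
      have a1 : ht o (p^[b] x) ≤ 0 :=
        ht_le.mpr ⟨0, 1, by rw [e, Function.iterate_succ_apply']; rfl, rfl⟩
      have a2 : ht (p^[b] x) x ≤ lev (p^[b] x) := ht_le.mpr ⟨0, b, rfl, by simp⟩
      refine ⟨p^[b] x, ?_, ?_⟩ <;> simp only [dd, lev_o] <;> push_cast at * <;> omega
  · have l1 := lev_p o
    rw [lev_o] at l1
    have a1 : ht o (p o) ≤ 1 := ht_le.mpr ⟨1, 0, rfl, rfl⟩
    have a2 : ht (p o) x ≤ ht o x := ht_le.mpr ⟨a, b, e, by push_cast at e2; omega⟩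
    refine ⟨p o, ?_, ?_⟩ <;> simp only [dd, lev_o] <;> omega

open Pointwise in
theorem X0_pow (n : ℕ) (g : G) (h : dd o (g.1 o) ≤ n) : g ∈ (X0 ∪ X0⁻¹) ^ (n + 1) := by
  induction n generalizing g with
  | zero =>
    rw [zero_add, pow_one]
    exact Or.inl (h.trans (by norm_num))
  | succ n ih =>
    rw [pow_succ']
    by_cases h0 : dd o (g.1 o) ≤ n
    · exact ⟨1, Or.inl (show dd o o ≤ 1 by rw [dd_self]; norm_num), g, ih g h0, one_mul g⟩
    · obtain ⟨y, h1, h2⟩ := nbr (g.1 o) (by omega)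
      obtain ⟨k, rfl⟩ := transG y
      refine ⟨k, Or.inl h1, k⁻¹ * g, ih _ ?_, mul_inv_cancel_left k g⟩
      rw [dd_mid]
      push_cast at h
      omega

open Pointwise in
theorem X0_low (n : ℕ) (g : G) (h : g ∈ (X0 ∪ X0⁻¹) ^ n) : dd o (g.1 o) ≤ n := by
  induction n generalizing g with
  | zero =>
    rw [pow_zero, Set.mem_one] at h
    rw [h, one_ap, dd_self]
    norm_num
  | succ n ih =>
    rw [pow_succ'] at h
    obtain ⟨a, ha, b, hb, rfl⟩ := h
    have h1 : dd o (a.1 o) ≤ 1 := by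
      rcases ha with ha | ha
      · exact ha
      · have : dd o ((a⁻¹).1 o) ≤ 1 := ha
        rwa [← dd_g a, ap_inv, dd_comm] at this
    have h2 := ih b hb
    have h3 := dd_tri o (a.1 o) (a.1 (b.1 o))
    rw [dd_g] at h3
    simp only [mul_ap]
    push_cast
    omega

open Pointwise in
theorem X0_gen : Subgroup.closure X0 = ⊤ := by
  rw [eq_top_iff]
  intro g _
  have h := X0_pow (dd o (g.1 o)).toNat g (Int.self_le_toNat _)
  generalize (dd o (g.1 o)).toNat + 1 = n at h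
  induction n generalizing g with
  | zero =>
    rw [pow_zero, Set.mem_one] at h
    rw [h]
    exact one_mem _
  | succ n ih =>
    rw [pow_succ'] at h
    obtain ⟨a, ha, b, hb, rfl⟩ := h
    refine mul_mem ?_ (ih (Subgroup.mem_top b) hb)
    rcases ha with ha | ha
    · exact Subgroup.subset_closure ha
    · exact (Subgroup.inv_mem_iff _).mp (Subgroup.subset_closure ha)

theorem X0_bdd {L : G → ℕ} (hL : IsLen L) : ∃ C, ∀ g ∈ X0, L g ≤ C := by
  obtain ⟨C, hC⟩ := bdd_U hL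
  have hb : be.1 (p o) = o := rfl
  have key : ∀ g : G, g.1 o = p o → L g ≤ C + L be := by
    intro g hg
    have h1 := hC (be * g) (inU_of (by rw [mul_ap, hg, hb]))
    have h2 := hL.mul be⁻¹ (be * g)
    rw [inv_mul_cancel_left, hL.inv] at h2
    omega
  refine ⟨C + L be, fun g hg => ?_⟩
  obtain ⟨a, b, e, e2⟩ := ht_J o (g.1 o)
  have h1 := J.lev2 e
  have h2 : dd o (g.1 o) ≤ 1 := hg
  simp only [dd, lev_o] at h1 e2 h2
  have h3 : (a = 0 ∧ b = 0) ∨ (a = 1 ∧ b = 0) ∨ (a = 0 ∧ b = 1) := by omega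
  rcases h3 with ⟨rfl, rfl⟩ | ⟨rfl, rfl⟩ | ⟨rfl, rfl⟩
  · have := hC g (inU_of e.symm)
    omega
  · exact key g e.symm
  · rw [← hL.inv]
    apply key
    have e' : o = g.1 (p o) := by rw [cm]; exact e
    conv_lhs => rw [e']
    exact inv_ap _ _

theorem H_bdd {L : G → ℕ} (hL : IsLen L) (h : ∀ M : ℤ, ∃ y, L y ≤ 1 ∧ M < dd o (y.1 o)) :
    ∃ C, ∀ g, chi g = 0 → L g ≤ C := by
  obtain ⟨C, hC⟩ := bdd_U hL
  refine ⟨1 + C + 1 + C, fun g hg => ?_⟩
  obtain ⟨j, b, e, e2⟩ := ht_J o (g.1 o)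
  have h1 := J.lev2 e
  change lev o + j = chi g + b at h1
  rw [lev_o] at h1
  obtain rfl : j = b := by omega
  obtain ⟨z, hz, hz2⟩ : ∃ z, L z ≤ 1 ∧ (j : ℤ) < ht o (z.1 o) - lev (z.1 o) := by
    obtain ⟨y, hy, hy2⟩ := h (2 * j)
    by_cases h2 : (j : ℤ) < ht o (y.1 o) - lev (y.1 o)
    · exact ⟨y, hy, h2⟩
    · refine ⟨y⁻¹, by rwa [hL.inv], ?_⟩
      have a1 := ht_g y o ((y⁻¹).1 o)
      rw [ap_inv, ht_comm] at a1
      have a2 : lev ((y⁻¹).1 o) = -chi y := chi_inv y
      simp only [dd, lev_o] at hy2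
      omega
  have e3 := congrArg z.1 e
  rw [cmi, cmi] at e3
  have l3 := J.lev2 e3
  rcases hx : z.1 o with ⟨n, l⟩
  rcases hw : z.1 (g.1 o) with ⟨n', l'⟩
  rw [hx] at hz2
  rw [hx, hw] at e3 l3
  have a1 := ht_le.mpr (J_o n l)
  simp only [lev] at hz2 l3
  obtain ⟨l2, e4, e5⟩ := it_le j n l (by omega)
  obtain rfl : n = n' := it_fst j n' n l' l2 (e3.symm.trans e4) (by
    rintro rfl
    simp at e5
    omega)
  obtain ⟨u, hu, hu2⟩ := homog n l l' (by omega)
  have a2 := hC _ (inU_of (g := g⁻¹ * z⁻¹ * u * z) (by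
    rw [mul_ap, mul_ap, mul_ap, hx, hu2, ← hw, inv_ap, inv_ap]))
  have a3 := hC u hu
  have e6 : g = z⁻¹ * u * z * (g⁻¹ * z⁻¹ * u * z)⁻¹ := by group
  have a4 := hL.mul (z⁻¹ * u * z) (g⁻¹ * z⁻¹ * u * z)⁻¹
  have a5 := hL.mul (z⁻¹ * u) z
  have a6 := hL.mul z⁻¹ u
  rw [← e6, hL.inv] at a4
  rw [hL.inv] at a6
  omega

end Pool.Agent.H.MP_98b561_al
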