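import Pool.Agent.H.MP_98b561_al.C

set_option autoImplicit false

namespace Pool.Agent.H.MP_98b561_al
open Pointwise

def Lox (L : G → ℕ) (g : G) : Prop := ∃ c : ℝ, 0 < c ∧ ∀ n : ℕ, c * (n : ℝ) ≤ (L (g ^ n) : ℝ)

def Same (L : G → ℕ) (a b : G) : Prop :=
  ∀ K : ℝ, ∃ N : ℕ, ∀ n m : ℕ, N ≤ n → N ≤ m → K ≤ gpr L (a ^ n) (b ^ m)

noncomputable def wl (S : Set G) (g : G) : ℕ := sInf {n : ℕ | g ∈ (S ∪ S⁻¹) ^ n}

theorem wl_len (S : Set G) (hS : Subgroup.closure S = ⊤) : IsLen (wl S) := (isLen_word S hS).1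

theorem L0_low (g : G) : dd o (g.1 o) ≤ wl X0 g := X0_low _ g ((isLen_word X0 X0_gen).2 g)

theorem dd_nonneg (x : V) : 0 ≤ dd o x := by
  have a := ht_ge o x
  have b := ht_ge' o x
  simp only [dd, lev_o] at *
  omega

theorem L0_up (g : G) : (wl X0 g : ℤ) ≤ dd o (g.1 o) + 1 := by
  have h : wl X0 g ≤ (dd o (g.1 o)).toNat + 1 :=
    Nat.sInf_le (X0_pow (dd o (g.1 o)).toNat g (Int.self_le_toNat _))
  have := dd_nonneg (g.1 o)
  omega

noncomputable def tp (x y : V) : ℤ := ht o x + ht o y - ht x y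

theorem gp_tp (a b : G) : (tp (a.1 o) (b.1 o) : ℝ) - 1 ≤ gpr (wl X0) a b ∧
    gpr (wl X0) a b ≤ (tp (a.1 o) (b.1 o) : ℝ) + 1 := by
  have a1 := L0_low a
  have a2 := L0_up a
  have b1 := L0_low b
  have b2 := L0_up b
  have c1 := L0_low (a⁻¹ * b)
  have c2 := L0_up (a⁻¹ * b)
  rw [dd_mid] at c1 c2
  simp only [dd, lev_o] at a1 a2 b1 b2 c1 c2
  have h1 : 2 * tp (a.1 o) (b.1 o) - 2 ≤ (wl X0 a : ℤ) + wl X0 b - wl X0 (a⁻¹ * b) := by
    unfold tp
    omega
  have h2 : (wl X0 a : ℤ) + wl X0 b - wl X0 (a⁻¹ * b) ≤ 2 * tp (a.1 o) (b.1 o) + 2 := by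
    unfold tp
    omega
  have h1' : 2 * (tp (a.1 o) (b.1 o) : ℝ) - 2 ≤ (wl X0 a : ℝ) + wl X0 b - wl X0 (a⁻¹ * b) := by
    exact_mod_cast h1
  have h2' : (wl X0 a : ℝ) + wl X0 b - wl X0 (a⁻¹ * b) ≤ 2 * (tp (a.1 o) (b.1 o) : ℝ) + 2 := by
    exact_mod_cast h2
  unfold gpr
  constructor <;> linarith

theorem tp_hyp (x y z : V) : tp x y ≤ tp x z ∨ tp y z ≤ tp x z := by
  have a1 := ht_tri x y z
  have a2 := ht_tri o y x
  have a3 := ht_tri o x y
  have a4 := ht_tri x o y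
  have a5 := ht_tri o y z
  have a6 := ht_tri o z y
  have a7 := ht_tri y o z
  have a8 := ht_tri o x z
  have a9 := ht_tri o z x
  have a10 := ht_tri x o z
  have a11 := ht_tri x z y
  have a12 := ht_tri y x z
  rw [ht_comm y x] at a2 a12
  rw [ht_comm x o] at a4 a10
  rw [ht_comm z y] at a6 a11
  rw [ht_comm y o] at a7
  rw [ht_comm z x] at a9
  unfold tp
  omega

theorem hyp0 (x y z : G) :
    min (gpr (wl X0) x y) (gpr (wl X0) y z) - 2 ≤ gpr (wl X0) x z := by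
  have a := (gp_tp x y).2
  have b := (gp_tp y z).2
  have c := (gp_tp x z).1
  have m1 := min_le_left (gpr (wl X0) x y) (gpr (wl X0) y z)
  have m2 := min_le_right (gpr (wl X0) x y) (gpr (wl X0) y z)
  rcases tp_hyp (x.1 o) (y.1 o) (z.1 o) with h | h
  · have : (tp (x.1 o) (y.1 o) : ℝ) ≤ tp (x.1 o) (z.1 o) := by exact_mod_cast h
    linarith
  · have : (tp (y.1 o) (z.1 o) : ℝ) ≤ tp (x.1 o) (z.1 o) := by exact_mod_cast h
    linarith

theorem not_lox {L : G → ℕ} (g : G) (C : ℕ) (h : ∀ n : ℕ, L (g ^ n) ≤ C) : ¬ Lox L g := by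
  rintro ⟨c, hc, h2⟩
  obtain ⟨n, hn⟩ := exists_nat_gt ((C : ℝ) / c)
  rw [div_lt_iff₀ hc] at hn
  have a := h2 n
  have b : (L (g ^ n) : ℝ) ≤ C := by exact_mod_cast h n
  linarith

theorem lox0 (g : G) : Lox (wl X0) g ↔ chi g ≠ 0 := by
  constructor
  · intro h hg
    obtain ⟨j, b, e, e2⟩ := ht_J o (g.1 o)
    have h1 := J.lev2 e
    change lev o + j = chi g + b at h1
    rw [lev_o] at h1
    obtain rfl : j = b := by omega
    refine not_lox g (2 * j + 1) (fun n => ?_) h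
    have h2 : p^[j] o = p^[j] ((g ^ n).1 o) := by
      rw [← cmi]
      induction n with
      | zero => rfl
      | succ n ih => rw [pow_succ', mul_ap, ← ih, cmi, ← e]
    have h3 : ht o ((g ^ n).1 o) ≤ j := ht_le.mpr ⟨j, j, h2, by simp [lev_o]⟩
    have h4 := L0_up (g ^ n)
    have h5 : lev ((g ^ n).1 o) = n * chi g := chi_pow g n
    rw [hg, mul_zero] at h5
    simp only [dd, lev_o] at h4
    omega
  · intro h
    refine ⟨1, one_pos, fun n => ?_⟩
    have a := ht_ge o ((g ^ n).1 o)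
    have b := ht_ge' o ((g ^ n).1 o)
    have c := L0_low (g ^ n)
    have h5 : lev ((g ^ n).1 o) = n * chi g := chi_pow g n
    simp only [dd, lev_o] at a c
    have : (n : ℤ) ≤ wl X0 (g ^ n) := by
      rcases lt_or_gt_of_ne h with h | h <;> nlinarith [Int.natCast_nonneg n]
    rw [one_mul]
    exact_mod_cast this

theorem same0 (g h : G) (hg : 0 < chi g) (hh : 0 < chi h) : Same (wl X0) g h := by
  intro K
  obtain ⟨N, hN⟩ := exists_nat_ge (K + 1)
  refine ⟨N, fun n m hn hm => ?_⟩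
  have a := (gp_tp (g ^ n) (h ^ m)).1
  have b1 := ht_ge' o ((g ^ n).1 o)
  have b2 := ht_ge' o ((h ^ m).1 o)
  have c1 : lev ((g ^ n).1 o) = n * chi g := chi_pow g n
  have c2 : lev ((h ^ m).1 o) = m * chi h := chi_pow h m
  have d := ht_tri ((g ^ n).1 o) o ((h ^ m).1 o)
  rw [ht_comm _ o] at d
  have e1 : (n : ℤ) ≤ n * chi g := by nlinarith [Int.natCast_nonneg n]
  have e2 : (m : ℤ) ≤ m * chi h := by nlinarith [Int.natCast_nonneg m]
  have f : (N : ℤ) ≤ tp ((g ^ n).1 o) ((h ^ m).1 o) := by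
    unfold tp
    omega
  have f' : (N : ℝ) ≤ tp ((g ^ n).1 o) ((h ^ m).1 o) := by exact_mod_cast f
  linarith

theorem not_same (g h : G) (H : ∀ n : ℕ, tp ((g ^ (n + 1)).1 o) ((h ^ (n + 1)).1 o) ≤ 0) :
    ¬ Same (wl X0) g h := by
  intro hs
  obtain ⟨N, hN⟩ := hs 2
  have a := hN (N + 1) (N + 1) (by omega) (by omega)
  have b := (gp_tp (g ^ (N + 1)) (h ^ (N + 1))).2
  have c : (tp ((g ^ (N + 1)).1 o) ((h ^ (N + 1)).1 o) : ℝ) ≤ 0 := by exact_mod_cast H N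
  linarith

theorem indep0 : ∃ g h : G, Lox (wl X0) g ∧ Lox (wl X0) h ∧
    ¬ ((Same (wl X0) g h ∧ Same (wl X0) g⁻¹ h⁻¹) ∨ (Same (wl X0) g h⁻¹ ∧ Same (wl X0) g⁻¹ h)) := by
  obtain ⟨e1, he⟩ := exists_ne (eps none)
  let u : G := lift (fun _ => Equiv.swap (eps none) e1)
  have hu : u.1 o = o := rfl
  have hu' : (u⁻¹).1 o = o := by
    conv_lhs => rw [← hu]
    exact inv_ap _ _
  have cu : chi (u * be * u⁻¹) = -1 := by
    rw [chi_mul, chi_mul, chi_inv, chi_be]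
    ring
  refine ⟨be, u * be * u⁻¹, (lox0 _).mpr (by rw [chi_be]; norm_num),
    (lox0 _).mpr (by rw [cu]; norm_num), ?_⟩
  have z : ∀ l, ht o (0, l) = 0 := fun l => le_antisymm (ht_le.mpr (J_o 0 l)) (ht_ge o _)
  rintro (⟨h, -⟩ | ⟨h, -⟩)
  · refine not_same _ _ (fun n => ?_) h
    rw [conj_pow, mul_ap, mul_ap, hu', be_pow_o, List.replicate_succ]
    simp only [u, lift_cons, Equiv.swap_apply_left, tp, z]
    by_contra hc
    have h1 : ht (0, eps none :: List.replicate n (eps none)) (0, e1 :: List.replicate n (eps none))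
      ≤ -1 := by omega
    obtain ⟨a, b, e, e2⟩ := ht_le.mp h1
    have e3 := J.lev2 e
    simp only [lev, List.length_cons, List.length_replicate] at e2 e3
    obtain rfl : a = n := by omega
    obtain rfl : b = a := by omega
    have k : ∀ (c : E) (j : ℕ), p^[j] (0, c :: List.replicate j (eps none)) = (0, [c]) := by
      intro c j
      induction j with
      | zero => rfl
      | succ j ih =>
        rw [Function.iterate_succ_apply, p_cons, List.replicate_succ', ← List.cons_append,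
          List.dropLast_concat, ih]
    rw [k, k] at e
    simp only [Prod.mk.injEq, List.cons.injEq, true_and, and_true] at e
    exact he e.symm
  · refine not_same _ _ (fun n => ?_) h
    have a1 := ht_tri o ((be ^ (n + 1)).1 o) (((u * be * u⁻¹)⁻¹ ^ (n + 1)).1 o)
    have a2 := ht_ge' ((be ^ (n + 1)).1 o) (((u * be * u⁻¹)⁻¹ ^ (n + 1)).1 o)
    have a3 : lev (((u * be * u⁻¹)⁻¹ ^ (n + 1)).1 o) = n + 1 :=
      (chi_pow _ (n + 1)).trans (by rw [chi_inv, cu]; push_cast; ring)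
    have a4 := z (List.replicate (n + 1) (eps none))
    rw [← be_pow_o] at a4
    unfold tp
    omega

theorem share0 (g h : G) (hg : Lox (wl X0) g) (hh : Lox (wl X0) h) :
    Same (wl X0) g h ∨ Same (wl X0) g h⁻¹ ∨ Same (wl X0) g⁻¹ h ∨ Same (wl X0) g⁻¹ h⁻¹ := by
  rw [lox0] at hg hh
  have a := chi_inv g
  have b := chi_inv h
  rcases lt_or_gt_of_ne hg with x | x <;> rcases lt_or_gt_of_ne hh with y | y
  · exact Or.inr (Or.inr (Or.inr (same0 _ _ (by omega) (by omega))))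
  · exact Or.inr (Or.inr (Or.inl (same0 _ _ (by omega) y)))
  · exact Or.inr (Or.inl (same0 _ _ x (by omega)))
  · exact Or.inl (same0 _ _ x y)

theorem lineal {L : G → ℕ} (hL : IsLen L) (δ : ℝ)
    (hyp : ∀ x y z, min (gpr L x y) (gpr L y z) - δ ≤ gpr L x z) (C : ℕ)
    (hC : ∀ g, chi g = 0 → L g ≤ C) (g h : G) (hg : Lox L g) (hh : Lox L h) :
    (Same L g h ∧ Same L g⁻¹ h⁻¹) ∨ (Same L g h⁻¹ ∧ Same L g⁻¹ h) := by
  have ne : ∀ g, Lox L g → chi g ≠ 0 := fun g hg h0 =>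
    not_lox g C (fun n => hC _ (by rw [chi_pow, h0, mul_zero])) hg
  have linv : ∀ g, Lox L g → Lox L g⁻¹ := fun g ⟨c, hc, h⟩ =>
    ⟨c, hc, fun n => by rw [inv_pow, hL.inv]; exact h n⟩
  have key : ∀ (β g h : G) (q r : ℕ), Lox L g → 0 < q → 0 < r → chi g = q * chi β →
      chi h = r * chi β → Same L g h := by
    intro β g h q r ⟨c, hc, hg⟩ hq hr e1 e2 K
    have k1 : ∀ (g : G) (q n : ℕ), chi g = q * chi β → L ((β ^ (q * n))⁻¹ * g ^ n) ≤ C := by
      intro g q n e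
      apply hC
      rw [chi_mul, chi_inv, chi_pow, chi_pow, e]
      push_cast
      ring
    obtain ⟨N, hN⟩ := conv hL δ hyp β q hq c C hc (fun n => by
      have a := hL.mul (β ^ (q * n)) ((β ^ (q * n))⁻¹ * g ^ n)
      rw [mul_inv_cancel_left] at a
      have b := k1 g q n e1
      have d : (L (g ^ n) : ℝ) ≤ L (β ^ (q * n)) + C := by exact_mod_cast a.trans (by omega)
      linarith [hg n]) (K + C + C)
    refine ⟨N, fun n m hn hm => ?_⟩
    have a := hN (q * n) (r * m) (hn.trans (Nat.le_mul_of_pos_left _ hq))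
      (hm.trans (Nat.le_mul_of_pos_left _ hr))
    have b := gpr_pert hL (β ^ (q * n)) (β ^ (r * m)) ((β ^ (q * n))⁻¹ * g ^ n)
      ((β ^ (r * m))⁻¹ * h ^ m)
    rw [mul_inv_cancel_left, mul_inv_cancel_left] at b
    have c1 : (L ((β ^ (q * n))⁻¹ * g ^ n) : ℝ) ≤ C := by exact_mod_cast k1 g q n e1
    have c2 : (L ((β ^ (r * m))⁻¹ * h ^ m) : ℝ) ≤ C := by exact_mod_cast k1 h r m e2
    linarith
  have pos : ∀ g h, Lox L g → 0 < chi g → 0 < chi h → Same L g h := fun g h hg a b =>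
    key be⁻¹ g h (chi g).toNat (chi h).toNat hg (by omega) (by omega)
      (by rw [chi_inv, chi_be]; omega) (by rw [chi_inv, chi_be]; omega)
  have neg : ∀ g h, Lox L g → chi g < 0 → chi h < 0 → Same L g h := fun g h hg a b =>
    key be g h (-chi g).toNat (-chi h).toNat hg (by omega) (by omega)
      (by rw [chi_be]; omega) (by rw [chi_be]; omega)
  have a := chi_inv g
  have b := chi_inv h
  rcases lt_or_gt_of_ne (ne g hg) with x | x <;> rcases lt_or_gt_of_ne (ne h hh) with y | y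
  · exact Or.inl ⟨neg _ _ hg x y, pos _ _ (linv g hg) (by omega) (by omega)⟩
  · exact Or.inr ⟨neg _ _ hg x (by omega), pos _ _ (linv g hg) (by omega) y⟩
  · exact Or.inr ⟨pos _ _ hg x (by omega), neg _ _ (linv g hg) (by omega) y⟩
  · exact Or.inl ⟨pos _ _ hg x y, neg _ _ (linv g hg) (by omega) (by omega)⟩

theorem uniq (Y : Set G) (hY : Subgroup.closure Y = ⊤) (δ : ℝ)
    (hyp : ∀ x y z, min (gpr (wl Y) x y) (gpr (wl Y) y z) - δ ≤ gpr (wl Y) x z) (g h : G)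
    (hg : Lox (wl Y) g) (hh : Lox (wl Y) h)
    (hn : ¬ ((Same (wl Y) g h ∧ Same (wl Y) g⁻¹ h⁻¹) ∨ (Same (wl Y) g h⁻¹ ∧ Same (wl Y) g⁻¹ h))) :
    ∃ C : ℕ, ∀ y ∈ Y, wl X0 y ≤ C := by
  by_contra hcon
  push Not at hcon
  obtain ⟨C, hC⟩ := H_bdd (wl_len Y hY) (fun M => by
    obtain ⟨y, hy, h2⟩ := hcon (M.toNat + 1)
    refine ⟨y, Nat.sInf_le (by rw [Set.mem_setOf_eq, pow_one]; exact Or.inl hy), ?_⟩
    have := L0_up y
    omega)
  exact hn (lineal (wl_len Y hY) δ hyp C hC g h hg hh)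

end Pool.Agent.H.MP_98b561_al
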